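import Pool.Agent.LibLNP.Main

/-!
Every language in `PSPACE` is polynomial-time many-one reducible to a language in `LNP`.
-/

namespace Pool.Agent.Results.MP_2f2cf0_lc.PSpaceToLNP

open Pool.Agent.LibComplexity Pool.Agent.LibLNP MeasureTheory

/-- The `k`-th word in length-lexicographic order: the binary representation of `k + 1`, most
significant digit first, without its leading digit. -/
def z (k : ℕ) : List Bool := (Nat.bits (k + 1)).dropLast.reverse

/-- A tupling of words: injective, and computable in polynomial time as a function of the first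
word when the other two are fixed. Every polynomial-time computable and invertible tupling has
these properties. -/
def IsTupling (t : List Bool → List Bool → List Bool → List Bool) : Prop :=
  (∀ x y w x' y' w', t x y w = t x' y' w' → x = x' ∧ y = y' ∧ w = w') ∧
    ∀ y w, InFP ∅ fun x => t x y w

/-- Oracle-dependent NP languages: families `B^Z = L(M^Z)`, for all oracles `Z`, where `M` is one
fixed nondeterministic oracle machine that runs in polynomial time for all oracles. -/
def OracleNP (B : Set (List Bool) → Set (List Bool)) : Prop :=
  ∃ (M : TM) (p : Polynomial ℕ), M.TimeBound Set.univ p ∧ ∀ Z, B Z = M.lang Z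

/-- The language `Lm(B)`. The oracle `Z` is given by its characteristic function `f`, and
`oracleMeasure` is the product of the fair coin measures. -/
def Lm (t : List Bool → List Bool → List Bool → List Bool)
    (B : Set (List Bool) → Set (List Bool)) : Set (List Bool) :=
  {u | ∃ (x : List Bool) (k n : ℕ), 1 ≤ k ∧ u = t x (z k) (z n) ∧
    (n : ℝ) / k < oracleMeasure.real {f | x ∈ B {w | f w = true}}}

/-! ### The enumeration of the words is injective -/

/-- the value of a list of binary digits -/
def val : List Bool → ℕ
  | [] => 0
  | b :: l => 2 * val l + b.toNat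

theorem val_bits (n : ℕ) : val (Nat.bits n) = n := by
  induction n using Nat.binaryRec' with
  | zero => simp [val]
  | bit b n h ih => rw [Nat.bits_append_bit n b h, val, ih, Nat.bit_val]

theorem bits_eq (n : ℕ) : n ≠ 0 → Nat.bits n = (Nat.bits n).dropLast ++ [true] := by
  induction n using Nat.binaryRec' with
  | zero => intro h; exact absurd rfl h
  | bit b n h ih =>
    intro _
    rw [Nat.bits_append_bit n b h]
    by_cases hn : n = 0
    · subst hn
      rw [h rfl]
      simp
    · have h1 := ih hn
      have h2 : Nat.bits n ≠ [] := by rw [h1]; simp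
      rw [List.dropLast_cons_of_ne_nil h2, List.cons_append, ← h1]

theorem z_injective {k k' : ℕ} (h : z k = z k') : k = k' := by
  have h1 : (Nat.bits (k + 1)).dropLast = (Nat.bits (k' + 1)).dropLast :=
    List.reverse_injective h
  have h2 := bits_eq (k + 1) (by omega)
  have h3 := bits_eq (k' + 1) (by omega)
  rw [h1, ← h3] at h2
  have h4 := congrArg val h2
  rw [val_bits, val_bits] at h4
  omega

/-! ### The tupling given by the encoding of triples -/

theorem exists_tupling : ∃ t, IsTupling t := by
  refine ⟨fun x y w => word (x, y, w), fun x y w x' y' w' h => ?_, fun y w => ?_⟩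
  · have h1 := word_injective h
    simp only [Prod.mk.injEq] at h1
    exact h1
  · exact inFP_of_PTf (A := ∅) (f := fun _ x => word (x, y, w))
      (PTf.word (PTf.id.pair ((PTf.const y).pair (PTf.const w))))

/-- **PSPACE is polynomial-time many-one reducible to LNP**: every language in `PSPACE` is
polynomial-time many-one reducible to `Lm(B)` for some oracle-dependent NP language `B`. -/
theorem result : (∃ t, IsTupling t) ∧ ∀ t, IsTupling t → ∀ L : Set (List Bool), InPSPACE L →
    ∃ B, OracleNP B ∧ PolyRed L (Lm t B) := by
  refine ⟨exists_tupling, fun t ht L hL => ?_⟩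
  obtain ⟨ℓ, c0, nx, acc, h0, h1, h2, h3, h4, h5⟩ := pspace_orbit hL
  obtain ⟨M, p, hM, hM'⟩ := exists_ntm (ptf_ver (h0 Set.univ) (h1 Set.univ) (h2 Set.univ))
    (ℓ + 1)
  refine ⟨fun Z => M.lang Z, ⟨M, p, hM, fun _ => rfl⟩, fun x => t x (z 2) (z 1), ht.2 _ _,
    fun x => ?_⟩
  have key : {f : List Bool → Bool | x ∈ M.lang {w | f w = true}} =
      accSet c0 nx acc (ℓ.eval x.length + 1) x := by
    ext f
    simp only [accSet, Set.mem_ofPred_eq]
    rw [hM' _ (Set.mem_univ _)]
    simp only [Set.mem_ofPred_eq, Polynomial.eval_add, Polynomial.eval_one]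
    rfl
  constructor
  · intro hx
    refine ⟨x, 2, 1, by omega, rfl, ?_⟩
    rw [key]
    have := half_lt_of_acc (h3 x) (h4 x) ((h5 x).1 hx)
    norm_num at this ⊢
    exact this
  · rintro ⟨x', k, n, -, h6, h7⟩
    obtain ⟨rfl, h8, h9⟩ := ht.1 _ _ _ _ _ _ h6
    have h10 := z_injective h8
    have h11 := z_injective h9
    subst h10 h11
    rw [key] at h7
    rw [h5]
    by_contra hcon
    push Not at hcon
    have := le_half_of_not_acc (h3 x) (h4 x) fun n => Bool.eq_false_of_not_eq_true (hcon n)
    norm_num at this h7
    linarith

end Pool.Agent.Results.MP_2f2cf0_lc.PSpaceToLNP
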